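import Mathlib

set_option autoImplicit false

namespace Pool.Agent.Lib.MP066b7c

open MvPolynomial

theorem eval_smul_homog {ι : Type} [Fintype ι] {φ : MvPolynomial ι ℂ} {n : ℕ}
    (hφ : φ.IsHomogeneous n) (t : ℂ) (x : ι → ℂ) :
    eval (t • x) φ = t ^ n * eval x φ := by
  rw [eval_eq', eval_eq', Finset.mul_sum]
  refine Finset.sum_congr rfl (fun d hd => ?_)
  have h1 : d.degree = n := by
    by_contra hcon
    exact (mem_support_iff.1 hd) (hφ.coeff_eq_zero hcon)
  rw [Finsupp.degree_eq_sum] at h1
  have h2 : ∏ i, (t • x) i ^ d i = t ^ n * ∏ i, x i ^ d i := by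
    simp only [Pi.smul_apply, smul_eq_mul, mul_pow]
    rw [Finset.prod_mul_distrib, Finset.prod_pow_eq_pow_sum, h1]
  rw [h2]
  ring

/-- Lowest-order argument: a polynomial which vanishes along curves `t h + t² g` with arbitrary
initial direction `h` is zero. -/
theorem eq_zero_of_curves {ι : Type} [Fintype ι] (Q : MvPolynomial ι ℂ)
    (h : ∀ v : ι → ℂ, ∃ g : ι → ℂ, ∀ t : ℂ, eval (t • v + t ^ 2 • g) Q = 0) : Q = 0 := by
  classical
  by_contra hQ
  have hex : ∃ n, homogeneousComponent n Q ≠ 0 := by
    by_contra hcon
    push Not at hcon
    apply hQ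
    rw [← sum_homogeneousComponent Q]
    exact Finset.sum_eq_zero (fun i _ => hcon i)
  set m := Nat.find hex with hm
  have hm1 : homogeneousComponent m Q ≠ 0 := Nat.find_spec hex
  have hm2 : ∀ j < m, homogeneousComponent j Q = 0 := fun j hj => by
    by_contra hcon
    exact Nat.find_min hex hj hcon
  apply hm1
  apply MvPolynomial.funext
  intro v
  rw [map_zero]
  obtain ⟨g, hg⟩ := h v
  -- the divided function
  let G : ℂ → ℂ := fun t => ∑ j ∈ Finset.range (Q.totalDegree + 1),
    if m ≤ j then t ^ (j - m) * eval (v + t • g) (homogeneousComponent j Q) else 0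
  have hG : ∀ t : ℂ, t ^ m * G t = 0 := by
    intro t
    have h1 := hg t
    have h2 : t • v + t ^ 2 • g = t • (v + t • g) := by
      rw [smul_add, smul_smul, pow_two]
    rw [h2] at h1
    rw [← h1]
    conv_rhs => rw [← sum_homogeneousComponent Q]
    rw [map_sum, Finset.mul_sum]
    refine Finset.sum_congr rfl (fun j _ => ?_)
    rw [eval_smul_homog (homogeneousComponent_isHomogeneous j Q)]
    split_ifs with hj
    · rw [← mul_assoc, ← pow_add, Nat.add_sub_cancel' hj]
    · rw [hm2 j (by omega)]
      simp
  have hG1 : ∀ t : ℂ, t ≠ 0 → G t = 0 := by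
    intro t ht
    rcases mul_eq_zero.1 (hG t) with h3 | h3
    · exact absurd h3 (pow_ne_zero m ht)
    · exact h3
  have hcont : Continuous G := by
    refine continuous_finsetSum _ (fun j _ => ?_)
    split_ifs with hj
    · refine (continuous_pow _).mul ?_
      exact (MvPolynomial.continuous_eval _).comp (by fun_prop)
    · exact continuous_const
  have hG0 : G 0 = 0 := by
    have hcl : IsClosed {t : ℂ | G t = 0} := isClosed_eq hcont continuous_const
    have hd : Dense {t : ℂ | t ≠ 0} := by
      have := dense_compl_singleton (0 : ℂ)
      exact this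
    have hsub : {t : ℂ | t ≠ 0} ⊆ {t : ℂ | G t = 0} := fun t ht => hG1 t ht
    have := hcl.closure_subset_iff.2 hsub
    rw [hd.closure_eq] at this
    exact this (Set.mem_univ 0)
  have hmr : m ∈ Finset.range (Q.totalDegree + 1) := by
    rw [Finset.mem_range]
    by_contra hcon
    exact hm1 (homogeneousComponent_eq_zero m Q (by omega))
  have h6 : G 0 = eval v (homogeneousComponent m Q) := by
    show (∑ j ∈ Finset.range (Q.totalDegree + 1),
      if m ≤ j then (0:ℂ) ^ (j - m) * eval (v + (0:ℂ) • g) (homogeneousComponent j Q) else 0) = _
    rw [Finset.sum_eq_single_of_mem m hmr]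
    · simp
    · intro j _ hj
      split_ifs with h7
      · rw [zero_pow (by omega), zero_mul]
      · rfl
  rw [← h6, hG0]

theorem eval_aeval_eq {ι κ : Type} (P : MvPolynomial ι ℂ) (f : ι → MvPolynomial κ ℂ)
    (y : κ → ℂ) : eval y (aeval f P) = eval (fun i => eval y (f i)) P := by
  induction P using MvPolynomial.induction_on with
  | C a => simp
  | add p q hp hq => rw [map_add, map_add, hp, hq, map_add]
  | mul_X p i hp => rw [map_mul, map_mul, hp, map_mul, aeval_X, eval_X]

/-- Dominance of the parametrization of tuples of matrices whose span meets the matrices of rank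
at most `r`. -/
theorem exists_dominant {a b k r : ℕ} (hra : r ≤ a) (hrb : r ≤ b) (hk : (a - r) * (b - r) < k)
    (P : MvPolynomial (Fin k × Fin a × Fin b) ℂ) (hP : P ≠ 0) :
    ∃ (θ : Fin k × Fin a × Fin b → ℂ) (c : Fin k → ℂ) (X : Matrix (Fin a) (Fin r) ℂ)
      (Y : Matrix (Fin r) (Fin b) ℂ), eval θ P ≠ 0 ∧ c ≠ 0 ∧
        ∀ i j, ∑ s, c s * θ (s, i, j) = (X * Y) i j := by
  classical
  by_contra hcon
  push Not at hcon
  -- special index and injection of the lower right block
  have hk0 : 0 < k := by omega
  let s0 : Fin k := ⟨0, hk0⟩
  have hw : ∃ w : Fin (a - r) × Fin (b - r) → Fin k, Function.Injective w ∧ ∀ p, w p ≠ s0 := by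
    refine ⟨fun p => ⟨(finProdFinEquiv p).val + 1, ?_⟩, ?_, ?_⟩
    · have := (finProdFinEquiv p).isLt
      omega
    · intro p q hpq
      have h1 : (finProdFinEquiv p).val + 1 = (finProdFinEquiv q).val + 1 := by
        simpa using hpq
      apply finProdFinEquiv.injective
      apply Fin.ext
      omega
    · intro p hp
      have : (finProdFinEquiv p).val + 1 = 0 := by
        simpa [s0] using congrArg Fin.val hp
      omega
  obtain ⟨w, hwi, hw0⟩ := hw
  -- base point
  let M0 : Fin k × Fin a × Fin b → ℂ := fun t =>
    if t.1 = s0 then (if t.2.1.val = t.2.2.val ∧ t.2.1.val < r then 1 else 0)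
    else ∑ p : Fin (a - r) × Fin (b - r),
      if t.1 = w p ∧ t.2.1.val = r + p.1.val ∧ t.2.2.val = r + p.2.val then 1 else 0
  let Q : MvPolynomial (Fin k × Fin a × Fin b) ℂ := aeval (fun t => X t + C (M0 t)) P
  have hQev : ∀ y, eval y Q = eval (y + M0) P := by
    intro y
    show eval y (aeval (fun t => X t + C (M0 t)) P) = _
    rw [eval_aeval_eq]
    have h1 : (fun i => eval y (X i + C (M0 i))) = y + M0 := by
      funext t
      rw [map_add, eval_X, eval_C]
      rfl
    rw [h1]
  have hQ0 : Q = 0 := by
    apply eq_zero_of_curves
    intro h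
    -- directions
    let X1 : Matrix (Fin a) (Fin r) ℂ := fun i l => h (s0, i, Fin.castLE hrb l)
    let Y1 : Matrix (Fin r) (Fin b) ℂ := fun l j =>
      if j.val < r then 0 else h (s0, Fin.castLE hra l, j)
    let X0 : Matrix (Fin a) (Fin r) ℂ := fun i l => if i.val = l.val then 1 else 0
    let Y0 : Matrix (Fin r) (Fin b) ℂ := fun l j => if l.val = j.val then 1 else 0
    let γ : Fin k → ℂ := fun s => ∑ p : Fin (a - r) × Fin (b - r),
      if s = w p then - h (s0, ⟨r + p.1.val, by omega⟩, ⟨r + p.2.val, by omega⟩) else 0
    have hγ0 : γ s0 = 0 := by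
      apply Finset.sum_eq_zero
      intro p _
      rw [if_neg (fun hh => hw0 p hh.symm)]
    let g : Fin k × Fin a × Fin b → ℂ := fun t =>
      if t.1 = s0 then (X1 * Y1) t.2.1 t.2.2 - ∑ s, γ s * (if s = s0 then 0 else h (s, t.2.1, t.2.2))
      else 0
    refine ⟨g, fun t => ?_⟩
    rw [hQev]
    by_contra hne
    have hne2 : (fun s => if s = s0 then 1 else t * γ s : Fin k → ℂ) ≠ 0 := by
      intro h0
      have := congrFun h0 s0
      simp at this
    obtain ⟨i, j, hij⟩ := hcon (t • h + t ^ 2 • g + M0) (fun s => if s = s0 then 1 else t * γ s)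
      (X0 + t • X1) (Y0 + t • Y1) hne hne2
    apply hij
    -- the constant term
    have hA : M0 (s0, i, j) = (X0 * Y0) i j := by
      rw [Matrix.mul_apply]
      simp only [M0, X0, Y0, if_true]
      by_cases hij : i.val = j.val ∧ i.val < r
      · rw [if_pos hij, Finset.sum_eq_single ⟨i.val, hij.2⟩]
        · simp [hij.1]
        · intro l _ hl
          rw [if_neg, zero_mul]
          intro hh
          apply hl
          exact Fin.ext hh.symm
        · simp
      · rw [if_neg hij]
        symm
        apply Finset.sum_eq_zero
        intro l _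
        by_cases h1 : i.val = l.val
        · by_cases h2 : l.val = j.val
          · exact absurd ⟨h1.trans h2, h1 ▸ l.isLt⟩ hij
          · rw [if_neg h2, mul_zero]
        · rw [if_neg h1, zero_mul]
    have hX1Y0 : (X1 * Y0) i j = if j.val < r then h (s0, i, j) else 0 := by
      rw [Matrix.mul_apply]
      simp only [X1, Y0]
      split_ifs with hj
      · rw [Finset.sum_eq_single ⟨j.val, hj⟩]
        · simp
        · intro l _ hl
          rw [if_neg, mul_zero]
          intro hh
          exact hl (Fin.ext hh)
        · simp
      · apply Finset.sum_eq_zero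
        intro l _
        rw [if_neg, mul_zero]
        intro hh
        exact hj (hh ▸ l.isLt)
    have hX0Y1 : (X0 * Y1) i j = if i.val < r ∧ ¬ j.val < r then h (s0, i, j) else 0 := by
      rw [Matrix.mul_apply]
      simp only [X0, Y1]
      by_cases hi : i.val < r
      · rw [Finset.sum_eq_single ⟨i.val, hi⟩]
        · by_cases hj : j.val < r
          · simp [hj]
          · simp [hi, hj]
        · intro l _ hl
          rw [if_neg, zero_mul]
          intro hh
          exact hl (Fin.ext hh.symm)
        · simp
      · rw [if_neg (fun hh => hi hh.1)]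
        apply Finset.sum_eq_zero
        intro l _
        rw [if_neg, zero_mul]
        intro hh
        exact hi (hh ▸ l.isLt)
    have hS : ∑ s, γ s * (if s = s0 then 0 else M0 (s, i, j)) =
        if ¬ i.val < r ∧ ¬ j.val < r then - h (s0, i, j) else 0 := by
      by_cases hc : ¬ i.val < r ∧ ¬ j.val < r
      · rw [if_pos hc]
        let p0 : Fin (a - r) × Fin (b - r) := (⟨i.val - r, by omega⟩, ⟨j.val - r, by omega⟩)
        rw [Finset.sum_eq_single (w p0)]
        · rw [if_neg (hw0 p0)]
          have h1 : M0 (w p0, i, j) = 1 := by
            simp only [M0]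
            rw [if_neg (hw0 p0), Finset.sum_eq_single p0]
            · rw [if_pos]
              refine ⟨rfl, ?_, ?_⟩
              · show i.val = r + (i.val - r)
                omega
              · show j.val = r + (j.val - r)
                omega
            · intro p _ hp
              rw [if_neg]
              intro hh
              exact hp (hwi hh.1).symm
            · simp
          have h2 : γ (w p0) = - h (s0, i, j) := by
            simp only [γ]
            rw [Finset.sum_eq_single p0]
            · rw [if_pos rfl]
              congr 3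
              · refine Prod.ext (Fin.ext ?_) (Fin.ext ?_)
                · show r + (i.val - r) = i.val
                  omega
                · show r + (j.val - r) = j.val
                  omega
            · intro p _ hp
              rw [if_neg]
              intro hh
              exact hp (hwi hh).symm
            · simp
          rw [h1, h2, mul_one]
        · intro s _ hs
          by_cases hs0 : s = s0
          · rw [if_pos hs0, mul_zero]
          · rw [if_neg hs0]
            have h1 : M0 (s, i, j) = 0 := by
              simp only [M0]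
              rw [if_neg hs0]
              apply Finset.sum_eq_zero
              intro p _
              rw [if_neg]
              rintro ⟨h3, h4, h5⟩
              apply hs
              rw [h3]
              congr 1
              refine Prod.ext (Fin.ext ?_) (Fin.ext ?_)
              · show p.1.val = i.val - r
                omega
              · show p.2.val = j.val - r
                omega
            rw [h1, mul_zero]
        · simp
      · rw [if_neg hc]
        apply Finset.sum_eq_zero
        intro s _
        by_cases hs0 : s = s0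
        · rw [if_pos hs0, mul_zero]
        · rw [if_neg hs0]
          have h1 : M0 (s, i, j) = 0 := by
            simp only [M0]
            rw [if_neg hs0]
            apply Finset.sum_eq_zero
            intro p _
            rw [if_neg]
            rintro ⟨h3, h4, h5⟩
            apply hc
            omega
          rw [h1, mul_zero]
    have hB : h (s0, i, j) + ∑ s, γ s * (if s = s0 then 0 else M0 (s, i, j)) =
        (X1 * Y0) i j + (X0 * Y1) i j := by
      rw [hS, hX1Y0, hX0Y1]
      by_cases hi : i.val < r <;> by_cases hj : j.val < r <;> simp [hi, hj]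
    have hR : ((X0 + t • X1) * (Y0 + t • Y1)) i j =
        (X0 * Y0) i j + t * ((X1 * Y0) i j + (X0 * Y1) i j) + t ^ 2 * (X1 * Y1) i j := by
      rw [Matrix.add_mul, Matrix.mul_add, Matrix.mul_add]
      simp only [Matrix.smul_mul, Matrix.mul_smul, Matrix.add_apply, Matrix.smul_apply, smul_eq_mul]
      ring
    rw [hR, ← hA, ← hB]
    have hL : ∀ s, (if s = s0 then 1 else t * γ s) * (t • h + t ^ 2 • g + M0) (s, i, j) =
        (if s = s0 then t * h (s0, i, j) + t ^ 2 * g (s0, i, j) + M0 (s0, i, j) else 0) +
        (t * (γ s * (if s = s0 then 0 else M0 (s, i, j))) +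
        t ^ 2 * (γ s * (if s = s0 then 0 else h (s, i, j)))) := by
      intro s
      by_cases hs : s = s0
      · subst hs
        simp
      · have hg0 : g (s, i, j) = 0 := by
          simp only [g]
          rw [if_neg hs]
        simp only [if_neg hs, Pi.add_apply, Pi.smul_apply, smul_eq_mul, hg0]
        ring
    rw [Finset.sum_congr rfl (fun s _ => hL s), Finset.sum_add_distrib, Finset.sum_add_distrib,
      ← Finset.mul_sum, ← Finset.mul_sum]
    rw [Finset.sum_ite_eq' Finset.univ s0]
    have hg1 : g (s0, i, j) = (X1 * Y1) i j -
        ∑ s, γ s * (if s = s0 then 0 else h (s, i, j)) := by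
      simp only [g]
      rw [if_pos trivial]
    rw [if_pos (Finset.mem_univ _), hg1]
    ring
  apply hP
  apply MvPolynomial.funext
  intro y
  rw [map_zero]
  have := hQev (y - M0)
  rw [hQ0, map_zero, sub_add_cancel] at this
  exact this.symm

end Pool.Agent.Lib.MP066b7c
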