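import Mathlib

set_option autoImplicit false

namespace Pool.Agent.Lib.MP066b7c

open MvPolynomial

/-- If finitely many polynomials have only the trivial common zero, then every monomial with a
large exponent lies in the ideal they generate. -/
theorem exists_exponent {σ : Type} [Fintype σ] {ι : Type}
    (f : ι → MvPolynomial σ ℂ) (hz : ∀ c : σ → ℂ, (∀ i, eval c (f i) = 0) → c = 0) :
    ∃ e : ℕ, ∀ γ : σ →₀ ℕ, (∃ s, e ≤ γ s) →
      monomial γ (1 : ℂ) ∈ Ideal.span (Set.range f) := by
  classical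
  have h1 : ∀ s : σ, ∃ e : ℕ, (X s : MvPolynomial σ ℂ) ^ e ∈ Ideal.span (Set.range f) := by
    intro s
    have : (X s : MvPolynomial σ ℂ) ∈ (Ideal.span (Set.range f)).radical := by
      rw [← vanishingIdeal_zeroLocus_eq_radical (K := ℂ)]
      rw [mem_vanishingIdeal_iff]
      intro x hx
      rw [zeroLocus_span] at hx
      have hx0 : x = 0 := by
        apply hz
        intro i
        have := hx (f i) ⟨i, rfl⟩
        simpa [aeval_eq_eval] using this
      simp [hx0]
    exact this
  choose e he using h1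
  refine ⟨∑ s, e s, ?_⟩
  rintro γ ⟨s, hs⟩
  have h2 : e s ≤ γ s := le_trans (Finset.single_le_sum (f := e) (fun _ _ => Nat.zero_le _)
    (Finset.mem_univ s)) hs
  have h3 : monomial γ (1 : ℂ) = monomial (γ - Finsupp.single s (e s)) (1 : ℂ) * X s ^ (e s) := by
    rw [X_pow_eq_monomial, monomial_mul, one_mul]
    have h4 : γ - Finsupp.single s (e s) + Finsupp.single s (e s) = γ := by
      apply tsub_add_cancel_of_le
      intro t
      by_cases ht : t = s
      · subst ht
        simpa using h2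
      · simp [Finsupp.single_apply, Ne.symm ht]
    rw [h4]
  rw [h3]
  exact Ideal.mul_mem_left _ _ (he s)

/-- Pigeonhole for exponents. -/
theorem exists_large {σ : Type} [Fintype σ] [Nonempty σ] (e : ℕ) (γ : σ →₀ ℕ)
    (h : Fintype.card σ * e ≤ ∑ s, γ s) : ∃ s, e ≤ γ s := by
  by_contra hcon
  push Not at hcon
  have : ∑ s, γ s < ∑ _s : σ, e :=
    Finset.sum_lt_sum_of_nonempty Finset.univ_nonempty (fun s _ => hcon s)
  simp at this
  omega

/-- Elimination theory: a system of polynomials, homogeneous of degree `d` in the variables `σ`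
with coefficients polynomial in parameters `τ`, which has only the trivial solution at one value of
the parameters, has only the trivial solution off a proper algebraic set of parameters. -/
theorem elim {σ τ : Type} [Fintype σ] [Nonempty σ] {ι : Type} [Fintype ι] (d : ℕ)
    (F : ι → MvPolynomial σ (MvPolynomial τ ℂ)) (hF : ∀ i, (F i).IsHomogeneous d)
    (θ₀ : τ → ℂ)
    (h0 : ∀ c : σ → ℂ, (∀ i, eval c (map (eval θ₀) (F i)) = 0) → c = 0) :
    ∃ P : MvPolynomial τ ℂ, eval θ₀ P ≠ 0 ∧ ∀ θ : τ → ℂ, eval θ P ≠ 0 →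
      ∀ c : σ → ℂ, (∀ i, eval c (map (eval θ) (F i)) = 0) → c = 0 := by
  classical
  obtain ⟨e, he⟩ := exists_exponent (fun i => map (eval θ₀) (F i)) h0
  set D : ℕ := Fintype.card σ * e + d + 1 with hD
  let Γ := ↥(Finset.finsuppAntidiag (Finset.univ : Finset σ) D)
  let Δ := ↥(Finset.finsuppAntidiag (Finset.univ : Finset σ) (D - d))
  have hΓ : ∀ γ : Γ, ∑ s, (γ : σ →₀ ℕ) s = D := fun γ =>
    (Finset.mem_finsuppAntidiag.1 γ.2).1
  -- the coefficient matrix
  let A : Matrix Γ (Δ × ι) (MvPolynomial τ ℂ) := fun γ δ =>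
    coeff (γ : σ →₀ ℕ) (monomial (δ.1 : σ →₀ ℕ) 1 * F δ.2)
  have hmem : ∀ γ : Γ, ∃ G : ι → MvPolynomial σ ℂ,
      monomial (γ : σ →₀ ℕ) (1 : ℂ) = ∑ i, G i * map (eval θ₀) (F i) := by
    intro γ
    have h1 : monomial (γ : σ →₀ ℕ) (1 : ℂ) ∈
        Ideal.span (Set.range fun i => map (eval θ₀) (F i)) := by
      apply he
      apply exists_large
      rw [hΓ γ]
      omega
    obtain ⟨G, hG⟩ := (Ideal.mem_span_range_iff_exists_fun).1 h1
    exact ⟨G, hG.symm⟩
  choose G hG using hmem
  let B : Matrix (Δ × ι) Γ ℂ := fun δ γ => coeff (δ.1 : σ →₀ ℕ) (G γ δ.2)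
  -- evaluate
  have key : (A.map (eval θ₀)) * B = 1 := by
    ext γ γ'
    rw [Matrix.mul_apply]
    have h1 : coeff (γ : σ →₀ ℕ) (monomial (γ' : σ →₀ ℕ) (1 : ℂ)) =
        ∑ i, coeff (γ : σ →₀ ℕ) (G γ' i * map (eval θ₀) (F i)) := by
      rw [hG γ', coeff_sum]
    have h2 : ∀ i, coeff (γ : σ →₀ ℕ) (G γ' i * map (eval θ₀) (F i)) =
        ∑ δ : Δ, coeff (δ : σ →₀ ℕ) (G γ' i) *
          (eval θ₀) (coeff (γ : σ →₀ ℕ) (monomial (δ : σ →₀ ℕ) 1 * F i)) := by
      intro i
      rw [coeff_mul]
      have h3 : ∀ δ : Δ, coeff (δ : σ →₀ ℕ) (G γ' i) *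
          (eval θ₀) (coeff (γ : σ →₀ ℕ) (monomial (δ : σ →₀ ℕ) 1 * F i)) =
          if (δ : σ →₀ ℕ) ≤ (γ : σ →₀ ℕ) then
            coeff (δ : σ →₀ ℕ) (G γ' i) *
              (eval θ₀) (coeff ((γ : σ →₀ ℕ) - (δ : σ →₀ ℕ)) (F i)) else 0 := by
        intro δ
        rw [coeff_monomial_mul']
        split_ifs <;> simp
      rw [Finset.sum_congr rfl (fun δ _ => h3 δ)]
      rw [← Finset.sum_filter]
      symm
      -- match the index sets
      have h4 : ∀ p ∈ Finset.HasAntidiagonal.antidiagonal (γ : σ →₀ ℕ),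
          p ∉ (Finset.HasAntidiagonal.antidiagonal (γ : σ →₀ ℕ)).filter (fun p => ∑ s, p.1 s = D - d) →
          coeff p.1 (G γ' i) * coeff p.2 (map (eval θ₀) (F i)) = 0 := by
        intro p hp hp'
        rw [Finset.mem_filter, not_and] at hp'
        have h5 := hp' hp
        rw [Finset.HasAntidiagonal.mem_antidiagonal] at hp
        have h6 : ∑ s, p.1 s + ∑ s, p.2 s = D := by
          rw [← hΓ γ, ← hp, ← Finset.sum_add_distrib]
          rfl
        have h7 : ∑ s, p.2 s ≠ d := by
          intro h8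
          apply h5
          omega
        rw [coeff_map]
        have h8 : coeff p.2 (F i) = 0 := by
          apply (hF i).coeff_eq_zero
          rw [Finsupp.degree_eq_sum]
          exact h7
        rw [h8]
        simp
      rw [← Finset.sum_subset (Finset.filter_subset _ _) h4]
      refine Finset.sum_bij' (fun δ _ => ((δ : σ →₀ ℕ), (γ : σ →₀ ℕ) - (δ : σ →₀ ℕ)))
        (fun p hp => ⟨p.1, ?_⟩) ?_ ?_ ?_ ?_ ?_
      · rw [Finset.mem_finsuppAntidiag]
        exact ⟨(Finset.mem_filter.1 hp).2, Finset.subset_univ _⟩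
      · intro δ hδ
        rw [Finset.mem_filter] at hδ ⊢
        refine ⟨?_, ?_⟩
        · rw [Finset.HasAntidiagonal.mem_antidiagonal]
          exact add_tsub_cancel_of_le hδ.2
        · exact (Finset.mem_finsuppAntidiag.1 δ.2).1
      · intro p hp
        rw [Finset.mem_filter]
        refine ⟨Finset.mem_univ _, ?_⟩
        rw [Finset.mem_filter, Finset.HasAntidiagonal.mem_antidiagonal] at hp
        have h5 : p.1 ≤ p.1 + p.2 := le_self_add
        exact le_trans h5 (le_of_eq hp.1)
      · intro δ hδ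
        rfl
      · intro p hp
        rw [Finset.mem_filter, Finset.HasAntidiagonal.mem_antidiagonal] at hp
        ext1
        · rfl
        · show (γ : σ →₀ ℕ) - p.1 = p.2
          rw [← hp.1]
          exact add_tsub_cancel_left _ _
      · intro δ hδ
        rw [coeff_map]
    have h9 : coeff (γ : σ →₀ ℕ) (monomial (γ' : σ →₀ ℕ) (1 : ℂ)) = (1 : Matrix Γ Γ ℂ) γ γ' := by
      rw [coeff_monomial, Matrix.one_apply]
      by_cases hγ : γ = γ'
      · subst hγ
        simp
      · rw [if_neg hγ, if_neg]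
        intro h
        exact hγ (Subtype.ext h.symm)
    rw [← h9, h1, Finset.sum_congr rfl (fun i _ => h2 i), Finset.sum_comm]
    rw [Fintype.sum_prod_type]
    refine Finset.sum_congr rfl (fun δ _ => Finset.sum_congr rfl (fun i _ => ?_))
    simp only [Matrix.map_apply]
    rw [mul_comm]
  let BC : Matrix (Δ × ι) Γ (MvPolynomial τ ℂ) := fun i j => C (B i j)
  have hBC : ∀ θ : τ → ℂ, BC.map (eval θ) = B := by
    intro θ
    ext i j
    rw [Matrix.map_apply]
    exact eval_C _
  let M : Matrix Γ Γ (MvPolynomial τ ℂ) := A * BC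
  have hM : ∀ θ : τ → ℂ, eval θ M.det = (A.map (eval θ) * B).det := by
    intro θ
    rw [RingHom.map_det, RingHom.mapMatrix_apply]
    have h1 : M.map (eval θ) = A.map (eval θ) * BC.map (eval θ) := Matrix.map_mul
    rw [h1, hBC θ]
  refine ⟨M.det, ?_, ?_⟩
  · rw [hM, key]
    simp
  · intro θ hθ c hc
    rw [hM] at hθ
    -- the row vector of monomial values
    let v : Γ → ℂ := fun γ => ∏ s, c s ^ ((γ : σ →₀ ℕ) s)
    have hv : Matrix.vecMul v (A.map (eval θ)) = 0 := by
      ext δ
      simp only [Matrix.vecMul, dotProduct, Matrix.map_apply, Pi.zero_apply]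
      have h1 : eval c (map (eval θ) (monomial (δ.1 : σ →₀ ℕ) 1 * F δ.2)) = 0 := by
        rw [map_mul, map_mul, hc δ.2, mul_zero]
      rw [← h1]
      rw [eval_eq']
      -- the support is in degree D
      have h2 : (map (eval θ) (monomial (δ.1 : σ →₀ ℕ) 1 * F δ.2)).support ⊆
          Finset.finsuppAntidiag (Finset.univ : Finset σ) D := by
        intro m hm
        rw [Finset.mem_finsuppAntidiag]
        refine ⟨?_, Finset.subset_univ _⟩
        have h3 : coeff m (monomial (δ.1 : σ →₀ ℕ) 1 * F δ.2) ≠ 0 := by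
          intro h4
          rw [mem_support_iff, coeff_map, h4] at hm
          simp at hm
        have h4 : (monomial (δ.1 : σ →₀ ℕ) (1 : MvPolynomial τ ℂ)).IsHomogeneous (D - d) := by
          apply isHomogeneous_monomial
          rw [Finsupp.degree_eq_sum]
          exact (Finset.mem_finsuppAntidiag.1 δ.1.2).1
        have h5 := h4.mul (hF δ.2)
        have h7 : m.degree = D - d + d := by
          by_contra h8
          exact h3 (h5.coeff_eq_zero h8)
        rw [Finsupp.degree_eq_sum] at h7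
        rw [h7]
        omega
      rw [Finset.sum_subset h2 (fun m _ hm => by
        rw [notMem_support_iff] at hm
        rw [hm, zero_mul])]
      rw [← Finset.sum_coe_sort (Finset.finsuppAntidiag (Finset.univ : Finset σ) D)
        (fun x => coeff x (map (eval θ) (monomial (δ.1 : σ →₀ ℕ) 1 * F δ.2)) * ∏ i, c i ^ x i)]
      refine Finset.sum_congr rfl (fun γ _ => ?_)
      rw [coeff_map, mul_comm]
    have hv2 : Matrix.vecMul v (A.map (eval θ) * B) = 0 := by
      rw [← Matrix.vecMul_vecMul, hv, Matrix.zero_vecMul]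
    have hv3 : v = 0 := Matrix.eq_zero_of_vecMul_eq_zero hθ hv2
    ext s
    have h1 : Finsupp.single s D ∈ Finset.finsuppAntidiag (Finset.univ : Finset σ) D := by
      rw [Finset.mem_finsuppAntidiag]
      refine ⟨?_, Finset.subset_univ _⟩
      simp [Finsupp.single_apply]
    have h2 : v ⟨Finsupp.single s D, h1⟩ = 0 := by rw [hv3]; rfl
    have h3 : v ⟨Finsupp.single s D, h1⟩ = c s ^ D := by
      show ∏ t, c t ^ ((Finsupp.single s D) t) = c s ^ D
      rw [Finset.prod_eq_single s]
      · simp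
      · intro t _ ht
        simp [Finsupp.single_apply, Ne.symm ht]
      · simp
    rw [h3] at h2
    have h4 : D ≠ 0 := by omega
    simpa [h4] using h2

end Pool.Agent.Lib.MP066b7c
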