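import Mathlib

set_option autoImplicit false

namespace Pool.Agent.Lib.MP066b7c

open Finset

/-- Vandermonde: a nonzero vector orthogonal to the first `r - 1` powers has at least `r` nonzero
entries. -/
theorem card_support_ge {a r : ℕ} (z : Fin a → ℂ)
    (hz : ∀ m, m + 1 < r → ∑ i : Fin a, (i.val : ℂ) ^ m * z i = 0) (h0 : ∃ i, z i ≠ 0) :
    r ≤ (univ.filter fun i => z i ≠ 0).card := by
  classical
  by_contra hcon
  push Not at hcon
  obtain ⟨i0, hi0⟩ := h0
  set T := univ.filter fun i => z i ≠ 0 with hT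
  have hi0T : i0 ∈ T := by simp [hT, hi0]
  let p : Polynomial ℂ := ∏ i ∈ T.erase i0, (Polynomial.X - Polynomial.C (i.val : ℂ))
  have hdeg : p.natDegree + 1 ≤ T.card := by
    have h1 : p.natDegree = (T.erase i0).card := by
      simp only [p]
      rw [Polynomial.natDegree_prod_of_monic _ _ (fun i _ => Polynomial.monic_X_sub_C _)]
      rw [sum_congr rfl (fun i _ => Polynomial.natDegree_X_sub_C _)]
      rw [sum_const, smul_eq_mul, mul_one]
    rw [h1, card_erase_of_mem hi0T]
    have : 0 < T.card := card_pos.2 ⟨i0, hi0T⟩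
    omega
  have hsum : ∑ i : Fin a, z i * p.eval (i.val : ℂ) = 0 := by
    have h1 : ∀ i : Fin a, z i * p.eval (i.val : ℂ) =
        ∑ m ∈ range (p.natDegree + 1), p.coeff m * ((i.val : ℂ) ^ m * z i) := by
      intro i
      rw [Polynomial.eval_eq_sum_range, mul_sum]
      refine sum_congr rfl (fun m _ => ?_)
      ring
    rw [sum_congr rfl (fun i _ => h1 i), sum_comm]
    apply sum_eq_zero
    intro m hm
    rw [mem_range] at hm
    rw [← mul_sum, hz m (by omega), mul_zero]
  have hsum2 : ∑ i : Fin a, z i * p.eval (i.val : ℂ) = z i0 * p.eval (i0.val : ℂ) := by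
    apply sum_eq_single_of_mem i0 (mem_univ _)
    intro i _ hi
    by_cases hzi : z i = 0
    · rw [hzi, zero_mul]
    · have : p.eval (i.val : ℂ) = 0 := by
        simp only [p]
        rw [Polynomial.eval_prod]
        apply prod_eq_zero (i := i)
        · rw [mem_erase]
          exact ⟨hi, by simp [hT, hzi]⟩
        · simp
      rw [this, mul_zero]
  rw [hsum2] at hsum
  rcases mul_eq_zero.1 hsum with h | h
  · exact hi0 h
  · simp only [p] at h
    rw [Polynomial.eval_prod, prod_eq_zero_iff] at h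
    obtain ⟨i, hi, h1⟩ := h
    rw [mem_erase] at hi
    apply hi.1
    apply Fin.ext
    have h2 : (i0.val : ℂ) = (i.val : ℂ) := by
      simpa [sub_eq_zero] using h1
    exact_mod_cast h2.symm

/-- The moment conditions: every diagonal is orthogonal to the first `r - 1` powers. -/
def Mom (r : ℕ) {a b : ℕ} (M : Matrix (Fin a) (Fin b) ℂ) : Prop :=
  ∀ (d : ℤ) (m : ℕ), m + 1 < r →
    ∑ i : Fin a, ∑ j : Fin b, (if (j.val : ℤ) - (i.val : ℤ) = d then (i.val : ℂ) ^ m * M i j else 0)
      = 0

theorem Mom.card_ge {r a b : ℕ} {M : Matrix (Fin a) (Fin b) ℂ} (hM : Mom r M) (d : ℤ)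
    (h0 : ∃ i j, (j.val : ℤ) - (i.val : ℤ) = d ∧ M i j ≠ 0) :
    r ≤ (univ.filter fun i : Fin a => ∃ j : Fin b, (j.val : ℤ) - (i.val : ℤ) = d ∧ M i j ≠ 0).card := by
  classical
  let z : Fin a → ℂ := fun i => ∑ j : Fin b, if (j.val : ℤ) - (i.val : ℤ) = d then M i j else 0
  have hz1 : ∀ i, z i ≠ 0 ↔ ∃ j : Fin b, (j.val : ℤ) - (i.val : ℤ) = d ∧ M i j ≠ 0 := by
    intro i
    constructor
    · intro h
      by_contra hcon
      push Not at hcon
      apply h
      apply sum_eq_zero
      intro j _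
      split_ifs with hj
      · exact hcon j hj
      · rfl
    · rintro ⟨j, hj, hne⟩
      have : z i = M i j := by
        simp only [z]
        rw [sum_eq_single_of_mem j (mem_univ _)]
        · rw [if_pos hj]
        · intro j' _ hj'
          rw [if_neg]
          intro h
          apply hj'
          apply Fin.ext
          omega
      rw [this]
      exact hne
  have h1 := card_support_ge (r := r) z (by
    intro m hm
    have h2 := hM d m hm
    rw [← h2]
    refine sum_congr rfl (fun i _ => ?_)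
    simp only [z]
    rw [mul_sum]
    refine sum_congr rfl (fun j _ => ?_)
    split_ifs <;> simp) (by
    obtain ⟨i, j, h3, h4⟩ := h0
    exact ⟨i, (hz1 i).2 ⟨j, h3, h4⟩⟩)
  refine h1.trans (le_of_eq ?_)
  congr 1
  ext i
  simp only [mem_filter, mem_univ, true_and]
  exact hz1 i

theorem Mom.add {r a b : ℕ} {M N : Matrix (Fin a) (Fin b) ℂ} (hM : Mom r M) (hN : Mom r N) :
    Mom r (M + N) := by
  intro d m hm
  have h1 := hM d m hm
  have h2 := hN d m hm
  have h3 : ∑ i : Fin a, ∑ j : Fin b,
      (if (j.val : ℤ) - (i.val : ℤ) = d then (i.val : ℂ) ^ m * (M + N) i j else 0) =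
      (∑ i : Fin a, ∑ j : Fin b,
        (if (j.val : ℤ) - (i.val : ℤ) = d then (i.val : ℂ) ^ m * M i j else 0)) +
      ∑ i : Fin a, ∑ j : Fin b,
        (if (j.val : ℤ) - (i.val : ℤ) = d then (i.val : ℂ) ^ m * N i j else 0) := by
    rw [← sum_add_distrib]
    refine sum_congr rfl (fun i _ => ?_)
    rw [← sum_add_distrib]
    refine sum_congr rfl (fun j _ => ?_)
    split_ifs
    · rw [Matrix.add_apply]
      ring
    · simp
  rw [h3, h1, h2, add_zero]

theorem Mom.smul {r a b : ℕ} {M : Matrix (Fin a) (Fin b) ℂ} (hM : Mom r M) (c : ℂ) :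
    Mom r (c • M) := by
  intro d m hm
  have h1 := hM d m hm
  have h3 : ∑ i : Fin a, ∑ j : Fin b,
      (if (j.val : ℤ) - (i.val : ℤ) = d then (i.val : ℂ) ^ m * (c • M) i j else 0) =
      c * ∑ i : Fin a, ∑ j : Fin b,
        (if (j.val : ℤ) - (i.val : ℤ) = d then (i.val : ℂ) ^ m * M i j else 0) := by
    rw [mul_sum]
    refine sum_congr rfl (fun i _ => ?_)
    rw [mul_sum]
    refine sum_congr rfl (fun j _ => ?_)
    split_ifs
    · rw [Matrix.smul_apply, smul_eq_mul]
      ring
    · simp
  rw [h3, h1, mul_zero]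

theorem Mom.zero {r a b : ℕ} : Mom r (0 : Matrix (Fin a) (Fin b) ℂ) := by
  intro d m hm
  simp

theorem Mom.sum {r a b : ℕ} {ι : Type} (s : Finset ι) (M : ι → Matrix (Fin a) (Fin b) ℂ)
    (hM : ∀ i ∈ s, Mom r (M i)) : Mom r (∑ i ∈ s, M i) := by
  classical
  induction s using Finset.induction_on with
  | empty => simpa using Mom.zero
  | insert i s hi ih =>
    rw [sum_insert hi]
    exact (hM i (mem_insert_self _ _)).add (ih (fun j hj => hM j (mem_insert_of_mem hj)))

/-- The shifted finite-difference matrices. -/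
noncomputable def W (r a b : ℕ) (u v : ℕ) : Matrix (Fin a) (Fin b) ℂ := fun i j =>
  if u ≤ i.val ∧ j.val + u = v + i.val then
    (((-1 : ℤ) ^ ((r - 1) - (i.val - u)) * ((r - 1).choose (i.val - u) : ℤ) : ℤ) : ℂ) else 0

theorem mom_W {r a b u v : ℕ} (hr : 1 ≤ r) (hu : u + r ≤ a) (hv : v + r ≤ b) :
    Mom r (W r a b u v) := by
  classical
  intro d m hm
  by_cases hd : (v : ℤ) - (u : ℤ) = d
  · -- the diagonal of W
    have h1 := fwdDiff_iter_pow_eq_zero_of_lt (R := ℂ) (j := m) (n := r - 1) (by omega)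
    have h2 := congrFun h1 (u : ℂ)
    rw [fwdDiff_iter_eq_sum_shift] at h2
    simp only [Pi.zero_apply] at h2
    have h3 : ∀ i : Fin a, ∑ j : Fin b,
        (if (j.val : ℤ) - (i.val : ℤ) = d then (i.val : ℂ) ^ m * W r a b u v i j else 0) =
        if u ≤ i.val ∧ i.val < u + r then (i.val : ℂ) ^ m *
          (((-1 : ℤ) ^ ((r - 1) - (i.val - u)) * ((r - 1).choose (i.val - u) : ℤ) : ℤ) : ℂ)
          else 0 := by
      intro i
      by_cases hi : u ≤ i.val ∧ i.val < u + r
      · rw [if_pos hi]
        rw [sum_eq_single_of_mem (⟨v + i.val - u, by omega⟩ : Fin b) (mem_univ _)]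
        · have e1 : ((⟨v + i.val - u, by omega⟩ : Fin b).val : ℤ) - (i.val : ℤ) = d := by
            simp only
            omega
          rw [if_pos e1]
          simp only [W]
          rw [if_pos]
          exact ⟨hi.1, by omega⟩
        · intro j _ hj
          rw [if_neg]
          intro h
          apply hj
          apply Fin.ext
          simp only
          omega
      · rw [if_neg hi]
        apply sum_eq_zero
        intro j _
        split_ifs with h
        · simp only [W]
          split_ifs with h4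
          · have : (r - 1).choose (i.val - u) = 0 := Nat.choose_eq_zero_of_lt (by omega)
            rw [this]
            simp
          · simp
        · rfl
    rw [sum_congr rfl (fun i _ => h3 i), ← sum_filter]
    refine Eq.trans (Eq.symm ?_) h2
    refine sum_bij' (fun l _ => if h : u + l < a then (⟨u + l, h⟩ : Fin a) else ⟨0, by omega⟩)
      (fun i _ => i.val - u) ?_ ?_ ?_ ?_ ?_
    · intro l hl
      rw [mem_range] at hl
      have h5 : u + l < a := by omega
      rw [dif_pos h5, mem_filter]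
      refine ⟨mem_univ _, ?_, ?_⟩
      · simp
      · simp only
        omega
    · intro i hi
      rw [mem_filter] at hi
      rw [mem_range]
      omega
    · intro l hl
      rw [mem_range] at hl
      have h5 : u + l < a := by omega
      rw [dif_pos h5]
      simp
    · intro i hi
      rw [mem_filter] at hi
      have h5 : u + (i.val - u) < a := by omega
      rw [dif_pos h5]
      apply Fin.ext
      simp only
      omega
    · intro l hl
      rw [mem_range] at hl
      have h5 : u + l < a := by omega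
      rw [dif_pos h5]
      simp only [add_tsub_cancel_left]
      rw [zsmul_eq_mul]
      push_cast
      simp only [nsmul_eq_mul, mul_one]
      ring
  · apply sum_eq_zero
    intro i _
    apply sum_eq_zero
    intro j _
    split_ifs with h
    · simp only [W]
      rw [if_neg, mul_zero]
      rintro ⟨h1, h2⟩
      omega
    · rfl

theorem indep_W {r a b : ℕ} (hr : 1 ≤ r) (hra : r ≤ a) (hrb : r ≤ b) :
    LinearIndependent ℂ (fun p : Fin (a - r + 1) × Fin (b - r + 1) =>
      W r a b p.1.val p.2.val) := by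
  classical
  rw [Fintype.linearIndependent_iff]
  intro g hg
  have key : ∀ n : ℕ, ∀ p : Fin (a - r + 1) × Fin (b - r + 1), p.1.val = n → g p = 0 := by
    intro n
    induction n using Nat.strong_induction_on with
    | _ n ih =>
      intro p hp
      have h1 := congrFun (congrFun hg ⟨p.1.val, by omega⟩) ⟨p.2.val, by omega⟩
      rw [Matrix.sum_apply] at h1
      rw [sum_eq_single_of_mem p (mem_univ _)] at h1
      · rw [Matrix.smul_apply, smul_eq_mul, Matrix.zero_apply] at h1
        rcases mul_eq_zero.1 h1 with h2 | h2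
        · exact h2
        · exfalso
          simp only [W] at h2
          rw [if_pos ⟨le_refl _, trivial⟩] at h2
          simp at h2
      · intro q _ hq
        rw [Matrix.smul_apply, smul_eq_mul]
        by_cases hlt : q.1.val < n
        · rw [ih q.1.val hlt q rfl, zero_mul]
        · have : W r a b q.1.val q.2.val ⟨p.1.val, by omega⟩ ⟨p.2.val, by omega⟩ = 0 := by
            simp only [W]
            rw [if_neg]
            rintro ⟨h3, h4⟩
            apply hq
            refine Prod.ext (Fin.ext ?_) (Fin.ext ?_)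
            · omega
            · omega
          rw [this, mul_zero]
  intro p
  exact key _ p rfl

theorem exists_indep_mom {r a b k : ℕ} (hr : 1 ≤ r) (hra : r ≤ a) (hrb : r ≤ b)
    (hk : k ≤ (a - r + 1) * (b - r + 1)) :
    ∃ M : Fin k → Matrix (Fin a) (Fin b) ℂ, LinearIndependent ℂ M ∧ ∀ s, Mom r (M s) := by
  let e : Fin k → Fin (a - r + 1) × Fin (b - r + 1) := fun s =>
    finProdFinEquiv.symm (Fin.castLE hk s)
  have he : Function.Injective e := finProdFinEquiv.symm.injective.comp (Fin.castLE_injective hk)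
  refine ⟨fun s => W r a b (e s).1.val (e s).2.val, (indep_W hr hra hrb).comp e he, ?_⟩
  intro s
  have h1 := (e s).1.isLt
  have h2 := (e s).2.isLt
  exact mom_W hr (by omega) (by omega)

/-- The generic element of the tensor product of two spans. -/
noncomputable def tens {a1 b1 k1 a2 b2 k2 : ℕ} (M : Fin k1 → Matrix (Fin a1) (Fin b1) ℂ)
    (N : Fin k2 → Matrix (Fin a2) (Fin b2) ℂ) (c : Fin k1 × Fin k2 → ℂ) :
    Matrix (Fin a1 × Fin a2) (Fin b1 × Fin b2) ℂ :=
  fun i j => ∑ s, c s * (M s.1 i.1 j.1 * N s.2 i.2 j.2)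

theorem tens_ne_zero {a1 b1 k1 a2 b2 k2 : ℕ} {M : Fin k1 → Matrix (Fin a1) (Fin b1) ℂ}
    {N : Fin k2 → Matrix (Fin a2) (Fin b2) ℂ} (hM : LinearIndependent ℂ M)
    (hN : LinearIndependent ℂ N) {c : Fin k1 × Fin k2 → ℂ} (hc : c ≠ 0) :
    ∃ i j, tens M N c i j ≠ 0 := by
  classical
  by_contra hcon
  push Not at hcon
  apply hc
  rw [Fintype.linearIndependent_iff] at hM hN
  funext st
  obtain ⟨s, t⟩ := st
  have h1 : ∀ (i2 : Fin a2) (j2 : Fin b2) (s : Fin k1), ∑ t, c (s, t) * N t i2 j2 = 0 := by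
    intro i2 j2
    apply hM (fun s => ∑ t, c (s, t) * N t i2 j2)
    ext i1 j1
    have h2 := hcon (i1, i2) (j1, j2)
    simp only [tens] at h2
    rw [Fintype.sum_prod_type] at h2
    rw [Matrix.sum_apply, Matrix.zero_apply, ← h2]
    refine sum_congr rfl (fun s _ => ?_)
    rw [Matrix.smul_apply, smul_eq_mul, sum_mul]
    refine sum_congr rfl (fun t _ => ?_)
    ring
  apply hN (fun t => c (s, t))
  ext i2 j2
  rw [Matrix.sum_apply, Matrix.zero_apply, ← h1 i2 j2 s]
  refine sum_congr rfl (fun t _ => ?_)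
  rw [Matrix.smul_apply, smul_eq_mul]

/-- The key example: nonzero elements of the tensor product of two spaces satisfying the moment
conditions have a nonzero minor of size `r1 * r2`. -/
theorem tens_minor {a1 b1 k1 a2 b2 k2 r1 r2 : ℕ} {M : Fin k1 → Matrix (Fin a1) (Fin b1) ℂ}
    {N : Fin k2 → Matrix (Fin a2) (Fin b2) ℂ} (hM : LinearIndependent ℂ M)
    (hN : LinearIndependent ℂ N) (hM1 : ∀ s, Mom r1 (M s)) (hN1 : ∀ s, Mom r2 (N s))
    {c : Fin k1 × Fin k2 → ℂ} (hc : c ≠ 0) :
    ∃ (f : Fin (r1 * r2) → Fin a1 × Fin a2) (g : Fin (r1 * r2) → Fin b1 × Fin b2),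
      ((tens M N c).submatrix f g).det ≠ 0 := by
  classical
  -- slices satisfy the moment conditions
  have hsl1 : ∀ (i2 : Fin a2) (j2 : Fin b2),
      Mom r1 (fun i1 j1 => tens M N c (i1, i2) (j1, j2) : Matrix (Fin a1) (Fin b1) ℂ) := by
    intro i2 j2
    have h1 : (fun i1 j1 => tens M N c (i1, i2) (j1, j2) : Matrix (Fin a1) (Fin b1) ℂ) =
        ∑ s, (∑ t, c (s, t) * N t i2 j2) • M s := by
      ext i1 j1
      rw [Matrix.sum_apply]
      simp only [tens]
      rw [Fintype.sum_prod_type]
      refine sum_congr rfl (fun s _ => ?_)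
      rw [Matrix.smul_apply, smul_eq_mul, sum_mul]
      refine sum_congr rfl (fun t _ => ?_)
      ring
    rw [h1]
    exact Mom.sum _ _ (fun s _ => (hM1 s).smul _)
  have hsl2 : ∀ (i1 : Fin a1) (j1 : Fin b1),
      Mom r2 (fun i2 j2 => tens M N c (i1, i2) (j1, j2) : Matrix (Fin a2) (Fin b2) ℂ) := by
    intro i1 j1
    have h1 : (fun i2 j2 => tens M N c (i1, i2) (j1, j2) : Matrix (Fin a2) (Fin b2) ℂ) =
        ∑ t, (∑ s, c (s, t) * M s i1 j1) • N t := by
      ext i2 j2
      rw [Matrix.sum_apply]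
      simp only [tens]
      rw [Fintype.sum_prod_type, sum_comm]
      refine sum_congr rfl (fun t _ => ?_)
      rw [Matrix.smul_apply, smul_eq_mul, sum_mul]
      refine sum_congr rfl (fun s _ => ?_)
      ring
    rw [h1]
    exact Mom.sum _ _ (fun s _ => (hN1 s).smul _)
  -- extreme diagonal
  let E : Finset ((Fin a1 × Fin a2) × (Fin b1 × Fin b2)) :=
    univ.filter fun e => tens M N c e.1 e.2 ≠ 0
  let key : (Fin a1 × Fin a2) × (Fin b1 × Fin b2) → ℤ ×ₗ ℤ := fun e =>
    toLex ((e.2.1.val : ℤ) - (e.1.1.val : ℤ), (e.2.2.val : ℤ) - (e.1.2.val : ℤ))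
  have hE : E.Nonempty := by
    obtain ⟨i, j, hij⟩ := tens_ne_zero hM hN hc
    exact ⟨(i, j), by simp [E, hij]⟩
  obtain ⟨e0, he0, hmin⟩ := exists_min_image E key hE
  set d1 : ℤ := (e0.2.1.val : ℤ) - (e0.1.1.val : ℤ) with hd1
  set d2 : ℤ := (e0.2.2.val : ℤ) - (e0.1.2.val : ℤ) with hd2
  have hkey0 : key e0 = toLex (d1, d2) := rfl
  let On : (Fin a1 × Fin a2) → Prop := fun i => ∃ j : Fin b1 × Fin b2,
    (j.1.val : ℤ) - (i.1.val : ℤ) = d1 ∧ (j.2.val : ℤ) - (i.2.val : ℤ) = d2 ∧
      tens M N c i j ≠ 0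
  let T : Finset (Fin a1 ×ₗ Fin a2) := univ.filter fun i => On (ofLex i)
  have hcard : r1 * r2 ≤ T.card := by
    -- project to the second coordinate
    let R : Finset (Fin a2) := univ.filter fun i2 => ∃ i1 : Fin a1, On (i1, i2)
    have hR : r2 ≤ R.card := by
      have h1 := (hsl2 e0.1.1 e0.2.1).card_ge d2 ⟨e0.1.2, e0.2.2, rfl, by
        have := (mem_filter.1 he0).2
        exact this⟩
      refine h1.trans (card_le_card ?_)
      intro i2 hi2
      rw [mem_filter] at hi2 ⊢
      obtain ⟨-, j2, h2, h3⟩ := hi2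
      exact ⟨mem_univ _, e0.1.1, (e0.2.1, j2), rfl, h2, h3⟩
    have hfib : ∀ i2 ∈ R, r1 ≤ (T.filter fun i => (ofLex i).2 = i2).card := by
      intro i2 hi2
      rw [mem_filter] at hi2
      obtain ⟨-, i1, ⟨j1, j2⟩, h2, h3, h4⟩ := hi2
      have h1 := (hsl1 i2 j2).card_ge d1 ⟨i1, j1, h2, h4⟩
      refine h1.trans ?_
      refine card_le_card_of_injOn (fun i => toLex (i, i2)) ?_ ?_
      · intro i hi
        have hi' := (mem_filter.1 hi).2
        obtain ⟨j, h5, h6⟩ := hi'
        rw [mem_coe, mem_filter]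
        refine ⟨?_, rfl⟩
        rw [mem_filter]
        exact ⟨mem_univ _, (j, j2), h5, h3, h6⟩
      · intro i _ i' _ h
        have : (i, i2) = (i', i2) := toLex.injective h
        exact congrArg Prod.fst this
    have h5 : ∑ i2 ∈ R, (T.filter fun i => (ofLex i).2 = i2).card ≤ T.card := by
      rw [← card_biUnion]
      · apply card_le_card
        intro x hx
        rw [mem_biUnion] at hx
        obtain ⟨i2, _, h6⟩ := hx
        exact (mem_filter.1 h6).1
      · intro i _ j _ hij
        rw [Function.onFun, disjoint_left]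
        intro x hx hx'
        exact hij ((mem_filter.1 hx).2.symm.trans (mem_filter.1 hx').2)
    calc r1 * r2 ≤ r1 * R.card := Nat.mul_le_mul_left _ hR
      _ = ∑ _i2 ∈ R, r1 := by rw [sum_const, smul_eq_mul, mul_comm]
      _ ≤ _ := sum_le_sum hfib
      _ ≤ _ := h5
  let emb := T.orderEmbOfCardLe hcard
  have hemb : ∀ i, On (ofLex (emb i)) := fun i =>
    (mem_filter.1 (T.orderEmbOfCardLe_mem hcard i)).2
  choose g hg1 hg2 hg3 using hemb
  refine ⟨fun i => ofLex (emb i), g, ?_⟩
  have htri : ((tens M N c).submatrix (fun i => ofLex (emb i)) g).IsUpperTriangular := by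
    intro i j hij
    simp only [id] at hij
    by_contra hne
    have h1 := hmin (ofLex (emb i), g j) (by
      rw [mem_filter]
      exact ⟨mem_univ _, hne⟩)
    rw [hkey0] at h1
    have h2 : emb j < emb i := emb.strictMono hij
    rw [Prod.Lex.lt_iff] at h2
    rw [Prod.Lex.le_iff] at h1
    have e1 := hg1 j
    have e2 := hg2 j
    simp only [key, ofLex_toLex] at h1
    rcases h2 with h2 | ⟨h2, h3⟩
    · have h2' : (ofLex (emb j)).1.val < (ofLex (emb i)).1.val := h2
      rcases h1 with h1 | ⟨h1, h4⟩ <;> omega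
    · have h2' : (ofLex (emb j)).1.val = (ofLex (emb i)).1.val := congrArg Fin.val h2
      have h3' : (ofLex (emb j)).2.val < (ofLex (emb i)).2.val := h3
      rcases h1 with h1 | ⟨h1, h4⟩ <;> omega
  rw [Matrix.det_of_isUpperTriangular htri]
  apply prod_ne_zero_iff.2
  intro i _
  exact hg3 i

end Pool.Agent.Lib.MP066b7c
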