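import Mathlib

set_option autoImplicit false

namespace Pool.Agent.Lib.MP066b7c

open Matrix

variable {K : Type} [Field K] {m n : Type} [Fintype m] [Fintype n]

/-- A nonzero minor of size `d` bounds the rank below. -/
theorem rank_ge_of_minor {d : ℕ} (A : Matrix m n K) (f : Fin d → m) (g : Fin d → n)
    (h : (A.submatrix f g).det ≠ 0) : d ≤ A.rank := by
  have h1 : (A.submatrix f g).rank = Fintype.card (Fin d) := rank_of_det_ne_zero h
  have h2 := rank_submatrix_le A f g
  rw [h1, Fintype.card_fin] at h2
  exact h2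

theorem exists_rows {d : ℕ} (A : Matrix m n K) (h : d ≤ A.rank) :
    ∃ f : Fin d → m, (A.submatrix f id).rank = d := by
  rw [rank_eq_finrank_span_row] at h
  obtain ⟨v, hv, -, hli⟩ := Submodule.exists_fun_fin_finrank_span_eq K (Set.range A.row)
  choose r hr using hv
  refine ⟨fun i => r (Fin.castLE h i), ?_⟩
  have h2 : LinearIndependent K (A.submatrix (fun i => r (Fin.castLE h i)) id).row := by
    have h3 : (A.submatrix (fun i => r (Fin.castLE h i)) id).row = v ∘ (Fin.castLE h) := by
      funext i
      show A.row (r (Fin.castLE h i)) = v (Fin.castLE h i)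
      exact hr _
    rw [h3]
    exact hli.comp _ (Fin.castLE_injective h)
  rw [h2.rank_matrix, Fintype.card_fin]

/-- A matrix of rank at least `d` has a nonzero minor of size `d`. -/
theorem exists_minor_of_rank {d : ℕ} (A : Matrix m n K) (h : d ≤ A.rank) :
    ∃ (f : Fin d → m) (g : Fin d → n), (A.submatrix f g).det ≠ 0 := by
  obtain ⟨f, hf⟩ := exists_rows A h
  have h2 : d ≤ ((A.submatrix f id)ᵀ).rank := by rw [rank_transpose, hf]
  obtain ⟨g, hg⟩ := exists_rows _ h2
  refine ⟨f, g, ?_⟩
  have h3 : (((A.submatrix f id)ᵀ).submatrix g id) = (A.submatrix f g)ᵀ := rfl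
  rw [h3, rank_transpose] at hg
  intro h0
  have h4 : LinearIndependent K (A.submatrix f g).row := by
    rw [linearIndependent_iff_card_eq_finrank_span, Set.finrank, ← rank_eq_finrank_span_row, hg,
      Fintype.card_fin]
  rw [linearIndependent_rows_iff_isUnit, isUnit_iff_isUnit_det, h0] at h4
  exact not_isUnit_zero h4

/-- factorization of a matrix through its rank. -/
theorem exists_factor (A : Matrix m n K) :
    ∃ (X : Matrix m (Fin A.rank) K) (Y : Matrix (Fin A.rank) n K), A = X * Y := by
  classical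
  -- the columns of A live in its range
  have e : LinearMap.range A.mulVecLin ≃ₗ[K] (Fin A.rank → K) :=
    LinearEquiv.ofFinrankEq _ _ (by rw [Module.finrank_fin_fun]; rfl)
  let Xl : (Fin A.rank → K) →ₗ[K] (m → K) := (LinearMap.range A.mulVecLin).subtype ∘ₗ e.symm.toLinearMap
  let Yl : (n → K) →ₗ[K] (Fin A.rank → K) := e.toLinearMap ∘ₗ A.mulVecLin.rangeRestrict
  refine ⟨LinearMap.toMatrix' Xl, LinearMap.toMatrix' Yl, ?_⟩
  rw [← LinearMap.toMatrix'_comp]
  have : Xl ∘ₗ Yl = A.mulVecLin := by
    ext v
    simp [Xl, Yl]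
  rw [this]
  rw [← Matrix.toLin'_apply', LinearMap.toMatrix'_toLin']

theorem rank_kronecker_le {m' n' : Type} [Fintype m'] [Fintype n'] (A : Matrix m n K)
    (B : Matrix m' n' K) :
    (kroneckerMap (fun u v : K => u * v) A B).rank ≤ A.rank * B.rank := by
  classical
  obtain ⟨X, Y, hXY⟩ := exists_factor A
  obtain ⟨Z, W, hZW⟩ := exists_factor B
  have h1 : kroneckerMap (fun u v : K => u * v) A B =
      kroneckerMap (fun u v : K => u * v) X Z * kroneckerMap (fun u v : K => u * v) Y W := by
    conv_lhs => rw [hXY, hZW]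
    exact mul_kronecker_mul _ _ _ _
  rw [h1]
  refine (rank_mul_le_left _ _).trans ((rank_le_card_width _).trans ?_)
  simp

end Pool.Agent.Lib.MP066b7c
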