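import Pool.Agent.Lib.MP_066b7c_al.Elim
import Pool.Agent.Lib.MP_066b7c_al.Minors
import Pool.Agent.Lib.MP_066b7c_al.Dominant

set_option autoImplicit false

namespace Pool.Agent.Lib.MP066b7c

open MvPolynomial

theorem isHomogeneous_det {σ R : Type} [CommRing R] {d : ℕ}
    (A : Matrix (Fin d) (Fin d) (MvPolynomial σ R)) (hA : ∀ i j, (A i j).IsHomogeneous 1) :
    A.det.IsHomogeneous d := by
  rw [Matrix.det_apply]
  apply IsHomogeneous.sum
  intro p _
  have h1 : (∏ i, A (p i) i).IsHomogeneous d := by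
    have := IsHomogeneous.prod Finset.univ (fun i => A (p i) i) (fun _ => 1) (fun i _ => hA _ _)
    simpa using this
  rcases Int.units_eq_one_or (Equiv.Perm.sign p) with h | h
  · rw [h, one_smul]
    exact h1
  · rw [h, Units.neg_smul, one_smul]
    exact h1.neg

/-- Elimination for minors. -/
theorem elim_minors {σ τ m n : Type} [Fintype σ] [Nonempty σ] [Fintype m] [Fintype n] (d : ℕ)
    (Z : Matrix m n (MvPolynomial σ (MvPolynomial τ ℂ))) (hZ : ∀ i j, (Z i j).IsHomogeneous 1)
    (θ₀ : τ → ℂ)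
    (h0 : ∀ c : σ → ℂ, c ≠ 0 → ∃ (f : Fin d → m) (g : Fin d → n),
      ((Z.map (fun p => eval c (map (eval θ₀) p))).submatrix f g).det ≠ 0) :
    ∃ P : MvPolynomial τ ℂ, eval θ₀ P ≠ 0 ∧ ∀ θ : τ → ℂ, eval θ P ≠ 0 →
      ∀ c : σ → ℂ, c ≠ 0 → ∃ (f : Fin d → m) (g : Fin d → n),
      ((Z.map (fun p => eval c (map (eval θ) p))).submatrix f g).det ≠ 0 := by
  classical
  have hdet : ∀ (θ : τ → ℂ) (c : σ → ℂ) (f : Fin d → m) (g : Fin d → n),
      eval c (map (eval θ) (Z.submatrix f g).det) =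
      ((Z.map (fun p => eval c (map (eval θ) p))).submatrix f g).det := by
    intro θ c f g
    have h1 := RingHom.map_det ((eval c).comp (map (eval θ))) (Z.submatrix f g)
    rw [RingHom.comp_apply] at h1
    rw [h1]
    rfl
  obtain ⟨P, hP0, hP⟩ := elim (τ := τ) d
    (fun fg : (Fin d → m) × (Fin d → n) => (Z.submatrix fg.1 fg.2).det)
    (fun fg => isHomogeneous_det _ (fun i j => hZ _ _)) θ₀ (by
      intro c hc
      by_contra hne
      obtain ⟨f, g, hfg⟩ := h0 c hne
      apply hfg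
      rw [← hdet]
      exact hc (f, g))
  refine ⟨P, hP0, fun θ hθ c hc => ?_⟩
  by_contra hcon
  push Not at hcon
  apply hc
  apply hP θ hθ
  rintro ⟨f, g⟩
  rw [hdet]
  exact hcon f g

/-- The generic element of the span of a tuple of matrices. -/
noncomputable def genMat (a b k : ℕ) : Matrix (Fin a) (Fin b)
    (MvPolynomial (Fin k) (MvPolynomial (Fin k × Fin a × Fin b) ℂ)) :=
  fun i j => ∑ s, C (X (s, i, j)) * X s

theorem genMat_homog (a b k : ℕ) (i : Fin a) (j : Fin b) : (genMat a b k i j).IsHomogeneous 1 := by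
  apply IsHomogeneous.sum
  intro s _
  exact isHomogeneous_C_mul_X _ _

theorem genMat_eval (a b k : ℕ) (θ : Fin k × Fin a × Fin b → ℂ) (c : Fin k → ℂ) :
    (genMat a b k).map (fun p => eval c (map (eval θ) p)) =
      Matrix.of (fun i j => ∑ s, c s * θ (s, i, j)) := by
  ext i j
  simp [genMat, mul_comm]

/-- Every `k`-dimensional space of `a × b` complex matrices with `(a - r) (b - r) < k` contains a
nonzero matrix of rank at most `r`. -/
theorem exists_low_rank {a b k r : ℕ} (hra : r ≤ a) (hrb : r ≤ b) (hk : (a - r) * (b - r) < k)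
    (M : Fin k → Matrix (Fin a) (Fin b) ℂ) :
    ∃ c : Fin k → ℂ, c ≠ 0 ∧ (∑ s, c s • M s).rank ≤ r := by
  classical
  by_contra hcon
  push Not at hcon
  have hne : Nonempty (Fin k) := ⟨⟨0, by omega⟩⟩
  have hsum : ∀ c : Fin k → ℂ, Matrix.of (fun i j => ∑ s, c s * M s i j) = ∑ s, c s • M s := by
    intro c
    ext i j
    simp [Matrix.sum_apply]
  obtain ⟨P, hP0, hP⟩ := elim_minors (r + 1) (genMat a b k) (genMat_homog a b k)
    (fun t => M t.1 t.2.1 t.2.2) (by
      intro c hc
      rw [genMat_eval]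
      apply exists_minor_of_rank
      have := hcon c hc
      rw [← hsum] at this
      exact this)
  have hPne : P ≠ 0 := by
    intro h
    rw [h, map_zero] at hP0
    exact hP0 rfl
  obtain ⟨θ, c, X, Y, h1, h2, h3⟩ := exists_dominant hra hrb hk P hPne
  obtain ⟨f, g, h4⟩ := hP θ h1 c h2
  rw [genMat_eval] at h4
  have h5 := rank_ge_of_minor _ f g h4
  have h6 : Matrix.of (fun i j => ∑ s, c s * θ (s, i, j)) = X * Y := by
    ext i j
    exact h3 i j
  rw [h6] at h5
  have h7 := (Matrix.rank_mul_le_left X Y).trans (Matrix.rank_le_width X)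
  omega

end Pool.Agent.Lib.MP066b7c
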