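import Pool.Agent.Lib.MP_066b7c_al.LowRank
import Pool.Agent.Lib.MP_066b7c_al.Example

set_option autoImplicit false

namespace Pool.Agent.Lib.MP066b7c

open MvPolynomial

theorem exists_r (a b k : ℕ) (h1 : 1 ≤ k) (h2 : k ≤ a * b) :
    ∃ r, 1 ≤ r ∧ r ≤ a ∧ r ≤ b ∧ (a - r) * (b - r) < k ∧ k ≤ (a - r + 1) * (b - r + 1) := by
  classical
  have hex : ∃ r, (a - r) * (b - r) < k := by
    refine ⟨min a b, ?_⟩
    rcases le_total a b with h | h
    · rw [min_eq_left h]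
      simp
      omega
    · rw [min_eq_right h]
      simp
      omega
  set r := Nat.find hex with hr
  have hr1 : (a - r) * (b - r) < k := Nat.find_spec hex
  have hr2 : ∀ j < r, ¬ (a - j) * (b - j) < k := fun j hj => Nat.find_min hex hj
  have hra : r ≤ a := Nat.find_min' hex (by simp; omega)
  have hrb : r ≤ b := Nat.find_min' hex (by simp; omega)
  have hr0 : 1 ≤ r := by
    by_contra h
    have : r = 0 := by omega
    rw [this] at hr1
    simp at hr1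
    omega
  refine ⟨r, hr0, hra, hrb, hr1, ?_⟩
  have h3 := hr2 (r - 1) (by omega)
  have h4 : a - (r - 1) = a - r + 1 := by omega
  have h5 : b - (r - 1) = b - r + 1 := by omega
  rw [h4, h5] at h3
  omega

/-- The generic element of the tensor product of the spans of two tuples. -/
noncomputable def genTens (a1 b1 k1 a2 b2 k2 : ℕ) : Matrix (Fin a1 × Fin a2) (Fin b1 × Fin b2)
    (MvPolynomial (Fin k1 × Fin k2)
      (MvPolynomial ((Fin k1 × Fin a1 × Fin b1) ⊕ (Fin k2 × Fin a2 × Fin b2)) ℂ)) :=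
  fun i j => ∑ s, C (X (Sum.inl (s.1, i.1, j.1)) * X (Sum.inr (s.2, i.2, j.2))) * X s

theorem genTens_homog (a1 b1 k1 a2 b2 k2 : ℕ) (i j) :
    (genTens a1 b1 k1 a2 b2 k2 i j).IsHomogeneous 1 := by
  apply IsHomogeneous.sum
  intro s _
  exact isHomogeneous_C_mul_X _ _

theorem genTens_eval {a1 b1 k1 a2 b2 k2 : ℕ} (M : Fin k1 → Matrix (Fin a1) (Fin b1) ℂ)
    (N : Fin k2 → Matrix (Fin a2) (Fin b2) ℂ) (c : Fin k1 × Fin k2 → ℂ) :
    (genTens a1 b1 k1 a2 b2 k2).map (fun p => eval c (map (eval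
      (Sum.elim (fun t : Fin k1 × Fin a1 × Fin b1 => M t.1 t.2.1 t.2.2)
                (fun t : Fin k2 × Fin a2 × Fin b2 => N t.1 t.2.1 t.2.2))) p)) = tens M N c := by
  ext i j
  simp [genTens, tens, mul_comm]

theorem tens_eq {a1 b1 k1 a2 b2 k2 : ℕ} (M : Fin k1 → Matrix (Fin a1) (Fin b1) ℂ)
    (N : Fin k2 → Matrix (Fin a2) (Fin b2) ℂ) (c : Fin k1 × Fin k2 → ℂ) :
    ∑ p, c p • Matrix.kroneckerMap (fun u v : ℂ => u * v) (M p.1) (N p.2) = tens M N c := by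
  ext i j
  rw [Matrix.sum_apply]
  rfl

theorem tens_kron {a1 b1 k1 a2 b2 k2 : ℕ} (M : Fin k1 → Matrix (Fin a1) (Fin b1) ℂ)
    (N : Fin k2 → Matrix (Fin a2) (Fin b2) ℂ) (α : Fin k1 → ℂ) (β : Fin k2 → ℂ) :
    tens M N (fun p => α p.1 * β p.2) =
      Matrix.kroneckerMap (fun u v : ℂ => u * v) (∑ s, α s • M s) (∑ t, β t • N t) := by
  ext i j
  rw [Matrix.kroneckerMap_apply, Matrix.sum_apply, Matrix.sum_apply, Finset.sum_mul_sum]
  simp only [tens]
  rw [Fintype.sum_prod_type]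
  refine Finset.sum_congr rfl (fun s _ => Finset.sum_congr rfl (fun t _ => ?_))
  rw [Matrix.smul_apply, Matrix.smul_apply, smul_eq_mul, smul_eq_mul]
  ring

theorem main (a1 b1 k1 a2 b2 k2 : ℕ) (hk1 : 1 ≤ k1) (hk1' : k1 ≤ a1 * b1) (hk2 : 1 ≤ k2)
    (hk2' : k2 ≤ a2 * b2) :
      ∃ P : MvPolynomial ((Fin k1 × Fin a1 × Fin b1) ⊕ (Fin k2 × Fin a2 × Fin b2)) ℂ,
        P ≠ 0 ∧
        ∀ (M : Fin k1 → Matrix (Fin a1) (Fin b1) ℂ) (N : Fin k2 → Matrix (Fin a2) (Fin b2) ℂ),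
          MvPolynomial.eval
              (Sum.elim (fun t : Fin k1 × Fin a1 × Fin b1 => M t.1 t.2.1 t.2.2)
                (fun t : Fin k2 × Fin a2 × Fin b2 => N t.1 t.2.1 t.2.2)) P ≠ 0 →
          sInf {r : ℕ | ∃ s ∈ Submodule.span ℂ
              {x : Matrix (Fin a1 × Fin a2) (Fin b1 × Fin b2) ℂ |
                ∃ i j, x = Matrix.kroneckerMap (fun u v : ℂ => u * v) (M i) (N j)},
              s ≠ 0 ∧ s.rank = r}
            = sInf {r : ℕ | ∃ s ∈ Submodule.span ℂ (Set.range M), s ≠ 0 ∧ s.rank = r} *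
              sInf {r : ℕ | ∃ s ∈ Submodule.span ℂ (Set.range N), s ≠ 0 ∧ s.rank = r} := by
  classical
  obtain ⟨r1, hr1, hra1, hrb1, hlt1, hle1⟩ := exists_r a1 b1 k1 hk1 hk1'
  obtain ⟨r2, hr2, hra2, hrb2, hlt2, hle2⟩ := exists_r a2 b2 k2 hk2 hk2'
  obtain ⟨M0, hM0, hM0'⟩ := exists_indep_mom hr1 hra1 hrb1 hle1
  obtain ⟨N0, hN0, hN0'⟩ := exists_indep_mom hr2 hra2 hrb2 hle2
  have : Nonempty (Fin k1 × Fin k2) := ⟨(⟨0, by omega⟩, ⟨0, by omega⟩)⟩
  obtain ⟨P, hP0, hP⟩ := elim_minors (r1 * r2) (genTens a1 b1 k1 a2 b2 k2)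
    (genTens_homog a1 b1 k1 a2 b2 k2)
    (Sum.elim (fun t : Fin k1 × Fin a1 × Fin b1 => M0 t.1 t.2.1 t.2.2)
      (fun t : Fin k2 × Fin a2 × Fin b2 => N0 t.1 t.2.1 t.2.2)) (by
      intro c hc
      rw [genTens_eval]
      exact tens_minor hM0 hN0 hM0' hN0' hc)
  refine ⟨P, ?_, ?_⟩
  · intro h
    rw [h, map_zero] at hP0
    exact hP0 rfl
  intro M N hMN
  have hrk : ∀ c : Fin k1 × Fin k2 → ℂ, c ≠ 0 → r1 * r2 ≤ (tens M N c).rank := by
    intro c hc
    obtain ⟨f, g, h⟩ := hP _ hMN c hc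
    rw [genTens_eval] at h
    exact rank_ge_of_minor _ f g h
  have hpos : 1 ≤ r1 * r2 := Nat.mul_pos hr1 hr2
  -- sets of ranks
  set AT := {r : ℕ | ∃ s ∈ Submodule.span ℂ
              {x : Matrix (Fin a1 × Fin a2) (Fin b1 × Fin b2) ℂ |
                ∃ i j, x = Matrix.kroneckerMap (fun u v : ℂ => u * v) (M i) (N j)},
              s ≠ 0 ∧ s.rank = r} with hAT
  set AM := {r : ℕ | ∃ s ∈ Submodule.span ℂ (Set.range M), s ≠ 0 ∧ s.rank = r} with hAM
  set AN := {r : ℕ | ∃ s ∈ Submodule.span ℂ (Set.range N), s ≠ 0 ∧ s.rank = r} with hAN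
  have hset : {x : Matrix (Fin a1 × Fin a2) (Fin b1 × Fin b2) ℂ |
                ∃ i j, x = Matrix.kroneckerMap (fun u v : ℂ => u * v) (M i) (N j)} =
      Set.range (fun p : Fin k1 × Fin k2 =>
        Matrix.kroneckerMap (fun u v : ℂ => u * v) (M p.1) (N p.2)) := by
    ext x
    constructor
    · rintro ⟨i, j, h⟩
      exact ⟨(i, j), h.symm⟩
    · rintro ⟨p, h⟩
      exact ⟨p.1, p.2, h.symm⟩
  have hspan : ∀ s, s ∈ Submodule.span ℂ
              {x : Matrix (Fin a1 × Fin a2) (Fin b1 × Fin b2) ℂ |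
                ∃ i j, x = Matrix.kroneckerMap (fun u v : ℂ => u * v) (M i) (N j)} ↔
      ∃ c : Fin k1 × Fin k2 → ℂ, tens M N c = s := by
    intro s
    rw [hset, Submodule.mem_span_range_iff_exists_fun]
    simp only [tens_eq]
  -- nonvanishing of nontrivial combinations
  have hMne : ∀ α : Fin k1 → ℂ, α ≠ 0 → ∑ s, α s • M s ≠ 0 := by
    intro α hα h0
    have h1 := hrk (fun p => α p.1 * (fun _ => (1:ℂ)) p.2) (by
      intro h
      apply hα
      funext s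
      have := congrFun h (s, ⟨0, by omega⟩)
      simpa using this)
    rw [tens_kron M N α (fun _ => 1), h0] at h1
    rw [Matrix.kroneckerMap_zero_left (fun u v : ℂ => u * v) (fun v => zero_mul v),
      Matrix.rank_zero] at h1
    omega
  have hNne : ∀ β : Fin k2 → ℂ, β ≠ 0 → ∑ s, β s • N s ≠ 0 := by
    intro β hβ h0
    have h1 := hrk (fun p => (fun _ => (1:ℂ)) p.1 * β p.2) (by
      intro h
      apply hβ
      funext s
      have := congrFun h (⟨0, by omega⟩, s)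
      simpa using this)
    rw [tens_kron M N (fun _ => 1) β, h0] at h1
    rw [Matrix.kroneckerMap_zero_right (fun u v : ℂ => u * v) (fun v => mul_zero v),
      Matrix.rank_zero] at h1
    omega
  obtain ⟨α, hα, hαr⟩ := exists_low_rank hra1 hrb1 hlt1 M
  obtain ⟨β, hβ, hβr⟩ := exists_low_rank hra2 hrb2 hlt2 N
  have hM1 : (∑ s, α s • M s).rank ∈ AM :=
    ⟨_, Submodule.sum_mem _ (fun s _ => Submodule.smul_mem _ _ (Submodule.subset_span ⟨s, rfl⟩)),
      hMne α hα, rfl⟩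
  have hN1 : (∑ s, β s • N s).rank ∈ AN :=
    ⟨_, Submodule.sum_mem _ (fun s _ => Submodule.smul_mem _ _ (Submodule.subset_span ⟨s, rfl⟩)),
      hNne β hβ, rfl⟩
  have hM2 : sInf AM ≤ r1 := (Nat.sInf_le hM1).trans hαr
  have hN2 : sInf AN ≤ r2 := (Nat.sInf_le hN1).trans hβr
  obtain ⟨s1, hs1, hs1', hs1r⟩ : sInf AM ∈ AM := Nat.sInf_mem ⟨_, hM1⟩
  obtain ⟨s2, hs2, hs2', hs2r⟩ : sInf AN ∈ AN := Nat.sInf_mem ⟨_, hN1⟩
  obtain ⟨α', hα'⟩ := (Submodule.mem_span_range_iff_exists_fun ℂ).1 hs1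
  obtain ⟨β', hβ'⟩ := (Submodule.mem_span_range_iff_exists_fun ℂ).1 hs2
  have hkne : Matrix.kroneckerMap (fun u v : ℂ => u * v) s1 s2 ≠ 0 := by
    intro h0
    apply hs1'
    ext i1 j1
    by_contra hne
    apply hs2'
    ext i2 j2
    have h1 := congrFun (congrFun h0 (i1, i2)) (j1, j2)
    rw [Matrix.kroneckerMap_apply, Matrix.zero_apply] at h1
    rcases mul_eq_zero.1 h1 with h2 | h2
    · exact absurd h2 hne
    · exact h2
  have hT1 : (Matrix.kroneckerMap (fun u v : ℂ => u * v) s1 s2).rank ∈ AT := by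
    refine ⟨_, ?_, hkne, rfl⟩
    rw [hspan]
    exact ⟨fun p => α' p.1 * β' p.2, by rw [tens_kron, hα', hβ']⟩
  have hT2 : sInf AT ≤ sInf AM * sInf AN := by
    refine (Nat.sInf_le hT1).trans ?_
    have := rank_kronecker_le s1 s2
    rw [hs1r, hs2r] at this
    exact this
  have hT3 : r1 * r2 ≤ sInf AT := by
    obtain ⟨s, hs, hs', hsr⟩ : sInf AT ∈ AT := Nat.sInf_mem ⟨_, hT1⟩
    obtain ⟨c, hc⟩ := (hspan s).1 hs
    have hc0 : c ≠ 0 := by
      intro h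
      apply hs'
      rw [← hc, h]
      ext i j
      simp [tens]
    rw [← hsr, ← hc]
    exact hrk c hc0
  have hT4 : sInf AM * sInf AN ≤ r1 * r2 := Nat.mul_le_mul hM2 hN2
  omega

end Pool.Agent.Lib.MP066b7c
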