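import Pool.Agent.Lib.MP_066b7c_al.Main

/-!
Generic minimal ranks, with the explicit value (used by the own statement of MP_066b7c_al).
-/

set_option autoImplicit false

namespace Pool.Agent.Lib.MP066b7c

open MvPolynomial

/-- The least `r` with `(a - r)(b - r) < k` (truncated subtraction). -/
noncomputable def genRank (a b k : ℕ) : ℕ := sInf {r : ℕ | (a - r) * (b - r) < k}

theorem genRank_eq {a b k r : ℕ} (hr : 1 ≤ r) (hra : r ≤ a) (hrb : r ≤ b)
    (hlt : (a - r) * (b - r) < k) (hle : k ≤ (a - r + 1) * (b - r + 1)) :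
    genRank a b k = r := by
  refine le_antisymm (Nat.sInf_le hlt) ?_
  refine le_csInf ⟨r, hlt⟩ ?_
  intro s hs
  by_contra hsr
  have h1 : a - r + 1 ≤ a - s := by omega
  have h2 : b - r + 1 ≤ b - s := by omega
  have h3 := Nat.mul_le_mul h1 h2
  have h4 : (a - s) * (b - s) < k := hs
  omega

theorem main_explicit (a1 b1 k1 a2 b2 k2 : ℕ) (hk1 : 1 ≤ k1) (hk1' : k1 ≤ a1 * b1) (hk2 : 1 ≤ k2)
    (hk2' : k2 ≤ a2 * b2) :
      ∃ P : MvPolynomial ((Fin k1 × Fin a1 × Fin b1) ⊕ (Fin k2 × Fin a2 × Fin b2)) ℂ,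
        P ≠ 0 ∧
        ∀ (M : Fin k1 → Matrix (Fin a1) (Fin b1) ℂ) (N : Fin k2 → Matrix (Fin a2) (Fin b2) ℂ),
          MvPolynomial.eval
              (Sum.elim (fun t : Fin k1 × Fin a1 × Fin b1 => M t.1 t.2.1 t.2.2)
                (fun t : Fin k2 × Fin a2 × Fin b2 => N t.1 t.2.1 t.2.2)) P ≠ 0 →
          LinearIndependent ℂ M ∧ LinearIndependent ℂ N ∧
          sInf {r : ℕ | ∃ s ∈ Submodule.span ℂ
              {x : Matrix (Fin a1 × Fin a2) (Fin b1 × Fin b2) ℂ |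
                ∃ i j, x = Matrix.kroneckerMap (fun u v : ℂ => u * v) (M i) (N j)},
              s ≠ 0 ∧ s.rank = r} = genRank a1 b1 k1 * genRank a2 b2 k2 ∧
          sInf {r : ℕ | ∃ s ∈ Submodule.span ℂ (Set.range M), s ≠ 0 ∧ s.rank = r} =
            genRank a1 b1 k1 ∧
          sInf {r : ℕ | ∃ s ∈ Submodule.span ℂ (Set.range N), s ≠ 0 ∧ s.rank = r} =
            genRank a2 b2 k2 := by
  classical
  obtain ⟨r1, hr1, hra1, hrb1, hlt1, hle1⟩ := exists_r a1 b1 k1 hk1 hk1'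
  obtain ⟨r2, hr2, hra2, hrb2, hlt2, hle2⟩ := exists_r a2 b2 k2 hk2 hk2'
  have e1 : genRank a1 b1 k1 = r1 := genRank_eq hr1 hra1 hrb1 hlt1 hle1
  have e2 : genRank a2 b2 k2 = r2 := genRank_eq hr2 hra2 hrb2 hlt2 hle2
  obtain ⟨M0, hM0, hM0'⟩ := exists_indep_mom hr1 hra1 hrb1 hle1
  obtain ⟨N0, hN0, hN0'⟩ := exists_indep_mom hr2 hra2 hrb2 hle2
  have : Nonempty (Fin k1 × Fin k2) := ⟨(⟨0, by omega⟩, ⟨0, by omega⟩)⟩
  obtain ⟨P, hP0, hP⟩ := elim_minors (r1 * r2) (genTens a1 b1 k1 a2 b2 k2)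
    (genTens_homog a1 b1 k1 a2 b2 k2)
    (Sum.elim (fun t : Fin k1 × Fin a1 × Fin b1 => M0 t.1 t.2.1 t.2.2)
      (fun t : Fin k2 × Fin a2 × Fin b2 => N0 t.1 t.2.1 t.2.2)) (by
      intro c hc
      rw [genTens_eval]
      exact tens_minor hM0 hN0 hM0' hN0' hc)
  refine ⟨P, ?_, ?_⟩
  · intro h
    rw [h, map_zero] at hP0
    exact hP0 rfl
  intro M N hMN
  have hrk : ∀ c : Fin k1 × Fin k2 → ℂ, c ≠ 0 → r1 * r2 ≤ (tens M N c).rank := by
    intro c hc
    obtain ⟨f, g, h⟩ := hP _ hMN c hc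
    rw [genTens_eval] at h
    exact rank_ge_of_minor _ f g h
  have hpos : 1 ≤ r1 * r2 := Nat.mul_pos hr1 hr2
  -- sets of ranks
  set AT := {r : ℕ | ∃ s ∈ Submodule.span ℂ
              {x : Matrix (Fin a1 × Fin a2) (Fin b1 × Fin b2) ℂ |
                ∃ i j, x = Matrix.kroneckerMap (fun u v : ℂ => u * v) (M i) (N j)},
              s ≠ 0 ∧ s.rank = r} with hAT
  set AM := {r : ℕ | ∃ s ∈ Submodule.span ℂ (Set.range M), s ≠ 0 ∧ s.rank = r} with hAM
  set AN := {r : ℕ | ∃ s ∈ Submodule.span ℂ (Set.range N), s ≠ 0 ∧ s.rank = r} with hAN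
  have hset : {x : Matrix (Fin a1 × Fin a2) (Fin b1 × Fin b2) ℂ |
                ∃ i j, x = Matrix.kroneckerMap (fun u v : ℂ => u * v) (M i) (N j)} =
      Set.range (fun p : Fin k1 × Fin k2 =>
        Matrix.kroneckerMap (fun u v : ℂ => u * v) (M p.1) (N p.2)) := by
    ext x
    constructor
    · rintro ⟨i, j, h⟩
      exact ⟨(i, j), h.symm⟩
    · rintro ⟨p, h⟩
      exact ⟨p.1, p.2, h.symm⟩
  have hspan : ∀ s, s ∈ Submodule.span ℂ
              {x : Matrix (Fin a1 × Fin a2) (Fin b1 × Fin b2) ℂ |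
                ∃ i j, x = Matrix.kroneckerMap (fun u v : ℂ => u * v) (M i) (N j)} ↔
      ∃ c : Fin k1 × Fin k2 → ℂ, tens M N c = s := by
    intro s
    rw [hset, Submodule.mem_span_range_iff_exists_fun]
    simp only [tens_eq]
  -- nonvanishing of nontrivial combinations
  have hMne : ∀ α : Fin k1 → ℂ, α ≠ 0 → ∑ s, α s • M s ≠ 0 := by
    intro α hα h0
    have h1 := hrk (fun p => α p.1 * (fun _ => (1:ℂ)) p.2) (by
      intro h
      apply hα
      funext s
      have := congrFun h (s, ⟨0, by omega⟩)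
      simpa using this)
    rw [tens_kron M N α (fun _ => 1), h0] at h1
    rw [Matrix.kroneckerMap_zero_left (fun u v : ℂ => u * v) (fun v => zero_mul v),
      Matrix.rank_zero] at h1
    omega
  have hNne : ∀ β : Fin k2 → ℂ, β ≠ 0 → ∑ s, β s • N s ≠ 0 := by
    intro β hβ h0
    have h1 := hrk (fun p => (fun _ => (1:ℂ)) p.1 * β p.2) (by
      intro h
      apply hβ
      funext s
      have := congrFun h (⟨0, by omega⟩, s)
      simpa using this)
    rw [tens_kron M N (fun _ => 1) β, h0] at h1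
    rw [Matrix.kroneckerMap_zero_right (fun u v : ℂ => u * v) (fun v => mul_zero v),
      Matrix.rank_zero] at h1
    omega
  obtain ⟨α, hα, hαr⟩ := exists_low_rank hra1 hrb1 hlt1 M
  obtain ⟨β, hβ, hβr⟩ := exists_low_rank hra2 hrb2 hlt2 N
  have hM1 : (∑ s, α s • M s).rank ∈ AM :=
    ⟨_, Submodule.sum_mem _ (fun s _ => Submodule.smul_mem _ _ (Submodule.subset_span ⟨s, rfl⟩)),
      hMne α hα, rfl⟩
  have hN1 : (∑ s, β s • N s).rank ∈ AN :=
    ⟨_, Submodule.sum_mem _ (fun s _ => Submodule.smul_mem _ _ (Submodule.subset_span ⟨s, rfl⟩)),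
      hNne β hβ, rfl⟩
  have hM2 : sInf AM ≤ r1 := (Nat.sInf_le hM1).trans hαr
  have hN2 : sInf AN ≤ r2 := (Nat.sInf_le hN1).trans hβr
  obtain ⟨s1, hs1, hs1', hs1r⟩ : sInf AM ∈ AM := Nat.sInf_mem ⟨_, hM1⟩
  obtain ⟨s2, hs2, hs2', hs2r⟩ : sInf AN ∈ AN := Nat.sInf_mem ⟨_, hN1⟩
  obtain ⟨α', hα'⟩ := (Submodule.mem_span_range_iff_exists_fun ℂ).1 hs1
  obtain ⟨β', hβ'⟩ := (Submodule.mem_span_range_iff_exists_fun ℂ).1 hs2
  have hkne : Matrix.kroneckerMap (fun u v : ℂ => u * v) s1 s2 ≠ 0 := by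
    intro h0
    apply hs1'
    ext i1 j1
    by_contra hne
    apply hs2'
    ext i2 j2
    have h1 := congrFun (congrFun h0 (i1, i2)) (j1, j2)
    rw [Matrix.kroneckerMap_apply, Matrix.zero_apply] at h1
    rcases mul_eq_zero.1 h1 with h2 | h2
    · exact absurd h2 hne
    · exact h2
  have hT1 : (Matrix.kroneckerMap (fun u v : ℂ => u * v) s1 s2).rank ∈ AT := by
    refine ⟨_, ?_, hkne, rfl⟩
    rw [hspan]
    exact ⟨fun p => α' p.1 * β' p.2, by rw [tens_kron, hα', hβ']⟩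
  have hT2 : sInf AT ≤ sInf AM * sInf AN := by
    refine (Nat.sInf_le hT1).trans ?_
    have := rank_kronecker_le s1 s2
    rw [hs1r, hs2r] at this
    exact this
  have hT3 : r1 * r2 ≤ sInf AT := by
    obtain ⟨s, hs, hs', hsr⟩ : sInf AT ∈ AT := Nat.sInf_mem ⟨_, hT1⟩
    obtain ⟨c, hc⟩ := (hspan s).1 hs
    have hc0 : c ≠ 0 := by
      intro h
      apply hs'
      rw [← hc, h]
      ext i j
      simp [tens]
    rw [← hsr, ← hc]
    exact hrk c hc0
  have hT4 : sInf AM * sInf AN ≤ r1 * r2 := Nat.mul_le_mul hM2 hN2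
  have h1M : 1 ≤ sInf AM := by
    by_contra h
    have h0 : sInf AM = 0 := by omega
    rw [h0, Nat.zero_mul] at hT2
    omega
  have h1N : 1 ≤ sInf AN := by
    by_contra h
    have h0 : sInf AN = 0 := by omega
    rw [h0, Nat.mul_zero] at hT2
    omega
  have hTe : sInf AT = r1 * r2 := le_antisymm (hT2.trans hT4) hT3
  have hMN : sInf AM * sInf AN = r1 * r2 := le_antisymm hT4 (hT3.trans hT2)
  have hMe : sInf AM = r1 := by
    by_contra h
    have h2 : sInf AM + 1 ≤ r1 := by omega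
    have h3 : (sInf AM + 1) * sInf AN ≤ r1 * r2 := Nat.mul_le_mul h2 hN2
    rw [Nat.add_mul, one_mul] at h3
    omega
  have hNe : sInf AN = r2 := by
    by_contra h
    have h2 : sInf AN + 1 ≤ r2 := by omega
    have h3 : sInf AM * (sInf AN + 1) ≤ r1 * r2 := Nat.mul_le_mul hM2 h2
    rw [Nat.mul_add, mul_one] at h3
    omega
  have hMi : LinearIndependent ℂ M := by
    rw [Fintype.linearIndependent_iff]
    intro g hg i
    by_contra hi
    exact hMne g (fun h => hi (by rw [h]; rfl)) hg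
  have hNi : LinearIndependent ℂ N := by
    rw [Fintype.linearIndependent_iff]
    intro g hg i
    by_contra hi
    exact hNne g (fun h => hi (by rw [h]; rfl)) hg
  rw [e1, e2]
  exact ⟨hMi, hNi, hTe, hMe, hNe⟩

end Pool.Agent.Lib.MP066b7c
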